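import Pool.Agent.Lib.Rtt.D

set_option autoImplicit false

open Finset Filter Topology MeasureTheory

namespace Pool.Agent.Rtt

lemma sum_Icc_one {E : Type*} [AddCommMonoid E] (F : ℕ → E) (N : ℕ) :
    ∑ m ∈ Icc 1 N, F m = ∑ m ∈ range N, F (m + 1) := by
  induction N with
  | zero => simp
  | succ N ih => rw [Finset.sum_Icc_succ_top (by omega), ih, Finset.sum_range_succ]

section
variable {Y : Type*} [MeasurableSpace Y]

/-- The points where some average of length in `[L, M]` is at least `a`. -/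
def FF (w : ℕ → ℂ) (S : Y → Y) (g : Y → ℂ) (a : ℝ) (L M : ℕ) : Set Y :=
  {y | ∃ n, L ≤ n ∧ n ≤ M ∧ a * n ≤ ‖∑ m ∈ range n, w m * g (S^[m] y)‖}

lemma measurableSet_FF (w : ℕ → ℂ) {S : Y → Y} {g : Y → ℂ} (hS : Measurable S)
    (hg : Measurable g) (a : ℝ) (L M : ℕ) : MeasurableSet (FF w S g a L M) := by
  have : FF w S g a L M = ⋃ n ∈ Icc L M, {y | a * n ≤ ‖∑ m ∈ range n, w m * g (S^[m] y)‖} := by
    ext y
    simp only [FF, Set.mem_setOf_eq, Set.mem_iUnion, mem_Icc, exists_prop]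
    constructor
    · rintro ⟨n, h1, h2, h3⟩
      exact ⟨n, ⟨h1, h2⟩, h3⟩
    · rintro ⟨n, ⟨h1, h2⟩, h3⟩
      exact ⟨n, h1, h2, h3⟩
  rw [this]
  refine Finset.measurableSet_biUnion _ (fun n _ => ?_)
  refine measurableSet_le measurable_const ?_
  refine Measurable.norm ?_
  refine Finset.measurable_sum _ (fun m _ => ?_)
  exact measurable_const.mul (hg.comp (hS.iterate m))

omit [MeasurableSpace Y] in
lemma FF_mono (w : ℕ → ℂ) (S : Y → Y) (g : Y → ℂ) (a : ℝ) (L : ℕ) {M M' : ℕ} (h : M ≤ M') :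
    FF w S g a L M ⊆ FF w S g a L M' := by
  rintro y ⟨n, h1, h2, h3⟩
  exact ⟨n, h1, h2.trans h, h3⟩

/-- The points where the averages are at least `a` infinitely often. -/
def EE (w : ℕ → ℂ) (S : Y → Y) (g : Y → ℂ) (a : ℝ) : Set Y :=
  {y | ∀ N₀ : ℕ, ∃ n, N₀ ≤ n ∧ a * n ≤ ‖∑ m ∈ range n, w m * g (S^[m] y)‖}

omit [MeasurableSpace Y] in
lemma EE_sub (w : ℕ → ℂ) (S : Y → Y) (g : Y → ℂ) (a : ℝ) (L : ℕ) :
    EE w S g a ⊆ ⋃ M, FF w S g a L M := by
  intro y hy
  obtain ⟨n, h1, h2⟩ := hy L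
  rw [Set.mem_iUnion]
  exact ⟨n, n, h1, le_rfl, h2⟩

lemma exists_M (w : ℕ → ℂ) {S : Y → Y} {g : Y → ℂ} (ν : Measure Y) [IsProbabilityMeasure ν]
    (a : ℝ) (L : ℕ) {β : ℝ} (hβ : β < ν.real (EE w S g a)) :
    ∃ M, L ≤ M ∧ β < ν.real (FF w S g a L M) := by
  have h1 : Monotone (fun M => FF w S g a L M) := fun M M' h => FF_mono w S g a L h
  have h2 := tendsto_measure_iUnion_atTop (μ := ν) h1
  have h3 : Tendsto (fun M => ν.real (FF w S g a L M)) atTop
      (𝓝 (ν.real (⋃ M, FF w S g a L M))) := by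
    unfold Measure.real
    exact (ENNReal.tendsto_toReal (measure_ne_top _ _)).comp h2
  have h4 : β < ν.real (⋃ M, FF w S g a L M) :=
    hβ.trans_le (measureReal_mono (EE_sub w S g a L))
  obtain ⟨M, hM1, hM2⟩ := ((h3.eventually (lt_mem_nhds h4)).and (eventually_ge_atTop L)).exists
  exact ⟨M, hM2, hM1⟩

/-- The scales. -/
lemma exists_scales (w : ℕ → ℂ) (hw : White w) (hb : ∀ m, ‖w m‖ ≤ 1)
    {S : Y → Y} {g : Y → ℂ} (ν : Measure Y) [IsProbabilityMeasure ν]
    (a : ℝ) {β : ℝ} (hβ : β < ν.real (EE w S g a)) {δ : ℝ} (hδ : 0 < δ) (K : ℕ) :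
    ∃ (L₀ : ℕ) (L M : ℕ → ℕ), Scales w δ L₀ K L M ∧ ∀ i, β < ν.real (FF w S g a (L i) (M i)) := by
  obtain ⟨L₀, hL₀, hden⟩ := hw.density hb hδ
  choose J0 hJ0 using hden
  have hM := fun L => exists_M w (S := S) (g := g) ν a L hβ
  choose Mf hMf using hM
  set nxt : ℕ → ℕ := fun m => max L₀ (max (J0 m) (max m ⌈2 * (m : ℝ) / δ⌉₊)) with hnxt
  set L : ℕ → ℕ := fun i => Nat.rec L₀ (fun _ l => nxt (Mf l)) i with hL
  have hLs : ∀ i, L (i + 1) = nxt (Mf (L i)) := fun i => rfl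
  have hLL : ∀ i, L₀ ≤ L i := by
    intro i
    cases i with
    | zero => exact le_rfl
    | succ i => rw [hLs]; exact le_max_left _ _
  have hmono1 : ∀ i, L i ≤ L (i + 1) := by
    intro i
    rw [hLs]
    have h1 : Mf (L i) ≤ nxt (Mf (L i)) :=
      (le_max_left _ _).trans ((le_max_right _ _).trans (le_max_right _ _))
    exact (hMf (L i)).1.trans h1
  have hmono : Monotone L := monotone_nat_of_le_succ hmono1
  refine ⟨L₀, L, fun i => Mf (L i), ⟨fun i _ => hLL i, fun i _ => hL₀.trans (hLL i), ?_, ?_⟩,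
    fun i => (hMf (L i)).2⟩
  · intro i _ j _ hij
    have h1 : ⌈2 * (Mf (L i) : ℝ) / δ⌉₊ ≤ L j := by
      have h2 : ⌈2 * (Mf (L i) : ℝ) / δ⌉₊ ≤ L (i + 1) := by
        rw [hLs]
        exact (le_max_right _ _).trans ((le_max_right _ _).trans (le_max_right _ _))
      exact h2.trans (hmono (by omega : i + 1 ≤ j))
    have h3 : 2 * (Mf (L i) : ℝ) / δ ≤ L j := (Nat.le_ceil _).trans (by exact_mod_cast h1)
    rw [div_le_iff₀ hδ] at h3
    linarith
  · intro i _ j _ hij R hR s hs hbad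
    refine hJ0 (Mf (L i)) R ?_ s hs hbad
    have h2 : J0 (Mf (L i)) ≤ L (i + 1) := by
      rw [hLs]
      exact (le_max_left _ _).trans (le_max_right _ _)
    exact (h2.trans (hmono (by omega : i + 1 ≤ j))).trans hR

/-- An orbit which visits the sets `F_i` often. -/
lemma exists_orbit {S : Y → Y} (ν : Measure Y) [IsProbabilityMeasure ν]
    (hS : MeasurePreserving S ν ν) (K T : ℕ) (F : ℕ → Set Y) (hF : ∀ i, MeasurableSet (F i)) :
    ∃ y, (T : ℝ) * ∑ i ∈ range K, ν.real (F i) ≤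
      ∑ i ∈ range K, ∑ t ∈ range T, (F i).indicator (fun _ => (1 : ℝ)) (S^[t] y) := by
  have hint : ∀ i t, Integrable (fun y => (F i).indicator (fun _ => (1 : ℝ)) (S^[t] y)) ν := by
    intro i t
    have h1 : Integrable ((F i).indicator (fun _ => (1 : ℝ))) ν :=
      (integrable_const (1 : ℝ)).indicator (hF i)
    exact (hS.iterate t).integrable_comp_of_integrable h1
  have hval : ∀ i t, ∫ y, (F i).indicator (fun _ => (1 : ℝ)) (S^[t] y) ∂ν = ν.real (F i) := by
    intro i t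
    have h1 := (hS.iterate t)
    have h2 : ∫ y, (F i).indicator (fun _ => (1 : ℝ)) (S^[t] y) ∂ν =
        ∫ y, (F i).indicator (fun _ => (1 : ℝ)) y ∂ν := by
      conv_rhs => rw [← h1.map_eq]
      rw [integral_map h1.measurable.aemeasurable]
      exact (measurable_const.indicator (hF i)).aestronglyMeasurable
    rw [h2, integral_indicator (hF i)]
    simp
  have hI : Integrable (fun y => ∑ i ∈ range K, ∑ t ∈ range T,
      (F i).indicator (fun _ => (1 : ℝ)) (S^[t] y)) ν :=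
    integrable_finset_sum _ (fun i _ => integrable_finset_sum _ (fun t _ => hint i t))
  obtain ⟨y, hy⟩ := exists_integral_le hI
  refine ⟨y, le_trans (le_of_eq ?_) hy⟩
  rw [integral_finset_sum _ (fun i _ => integrable_finset_sum _ (fun t _ => hint i t)),
    Finset.mul_sum]
  refine Finset.sum_congr rfl (fun i _ => ?_)
  rw [integral_finset_sum _ (fun t _ => hint i t), Finset.sum_congr rfl (fun t _ => hval i t),
    Finset.sum_const, card_range, nsmul_eq_mul]

lemma EE_null (w : ℕ → ℂ) (hw : White w) (hb : ∀ m, ‖w m‖ ≤ 1)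
    {S : Y → Y} {g : Y → ℂ} (ν : Measure Y) [IsProbabilityMeasure ν]
    (hS : MeasurePreserving S ν ν) (hg : Measurable g) (hg1 : ∀ y, ‖g y‖ ≤ 1)
    {a : ℝ} (ha : 0 < a) : ν (EE w S g a) = 0 := by
  classical
  by_contra hne
  have hpos : 0 < ν.real (EE w S g a) :=
    ENNReal.toReal_pos hne (measure_ne_top _ _)
  set β := ν.real (EE w S g a) / 2 with hβdef
  have hβ0 : 0 < β := by rw [hβdef]; linarith
  have hβ1 : β < ν.real (EE w S g a) := by rw [hβdef]; linarith
  have hβle : β ≤ 1 := by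
    have : ν.real (EE w S g a) ≤ 1 := measureReal_le_one
    linarith
  obtain ⟨K, hK⟩ := exists_nat_gt (32 / (a * β) ^ 2)
  have hK0 : (0 : ℝ) < K := lt_of_le_of_lt (by positivity) hK
  have hK1 : 0 < K := by exact_mod_cast hK0
  set δ : ℝ := β / (8 * K) with hδdef
  have hδ : 0 < δ := by positivity
  obtain ⟨L₀, L, M, hsc, hF⟩ := exists_scales w hw hb (S := S) (g := g) ν a hβ1 hδ K
  -- the ambient length
  set Mx := ∑ i ∈ range K, M i with hMx
  set T := Mx + 1 with hT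
  have hMle : ∀ i < K, M i ≤ Mx := by
    intro i hi
    rw [hMx]
    exact Finset.single_le_sum (f := M) (fun _ _ => Nat.zero_le _) (mem_range.2 hi)
  obtain ⟨y, hy⟩ := exists_orbit ν hS K T (fun i => FF w S g a (L i) (M i))
    (fun i => measurableSet_FF w hS.measurable hg a _ _)
  set B : ℕ → Finset ℕ := fun i => (range T).filter (fun t => S^[t] y ∈ FF w S g a (L i) (M i))
    with hB
  have hcardB : ∀ i, ((B i).card : ℝ) = ∑ t ∈ range T,
      (FF w S g a (L i) (M i)).indicator (fun _ => (1 : ℝ)) (S^[t] y) := by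
    intro i
    rw [hB, Finset.card_filter]
    push_cast
    refine Finset.sum_congr rfl (fun t _ => ?_)
    by_cases h : S^[t] y ∈ FF w S g a (L i) (M i)
    · rw [if_pos h, Set.indicator_of_mem h]
    · rw [if_neg h, Set.indicator_of_notMem h]
  have h1 := core w (fun s => g (S^[s] y)) hb (fun s => hg1 _) hδ.le ha.le L₀ K L M hsc
    (T + Mx) B (by
      intro i hi t ht
      have h2 := hMle i hi
      have h3 := mem_range.1 (mem_filter.1 ht).1
      omega) (by
      intro i hi t ht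
      obtain ⟨n, h3, h4, h5⟩ := (mem_filter.1 ht).2
      refine ⟨n, h3, h4, h5.trans (le_of_eq ?_)⟩
      congr 1
      refine Finset.sum_congr rfl (fun m _ => ?_)
      rw [← Function.iterate_add_apply, Nat.add_comm m t])
  have h2 : (T : ℝ) * (K * β) ≤ ∑ i ∈ range K, ((B i).card : ℝ) := by
    rw [Finset.sum_congr rfl (fun i _ => hcardB i)]
    refine le_trans ?_ hy
    refine mul_le_mul_of_nonneg_left ?_ (by positivity)
    calc (K : ℝ) * β = ∑ i ∈ range K, β := by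
          rw [Finset.sum_const, card_range, nsmul_eq_mul]
      _ ≤ _ := Finset.sum_le_sum (fun i _ => (hF i).le)
  have hTp : (0 : ℝ) < T := by
    rw [hT]
    positivity
  have hMT : ((T + Mx : ℕ) : ℝ) ≤ 2 * T := by
    rw [hT]
    push_cast
    linarith
  have h3 : ∑ i ∈ range K, (((B i).card : ℝ) - 2 * δ * ((T + Mx : ℕ) : ℝ) * K) =
      ∑ i ∈ range K, ((B i).card : ℝ) - K * (2 * δ * ((T + Mx : ℕ) : ℝ) * K) := by
    rw [Finset.sum_sub_distrib, Finset.sum_const, card_range, nsmul_eq_mul]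
  rw [h3] at h1
  have h4 : (K : ℝ) * (2 * δ * ((T + Mx : ℕ) : ℝ) * K) ≤ T * (K * β) / 2 := by
    calc (K : ℝ) * (2 * δ * ((T + Mx : ℕ) : ℝ) * K) ≤ K * (2 * δ * (2 * T) * K) := by
          gcongr
      _ = T * (K * β) / 2 := by
          rw [hδdef]
          field_simp
          ring
  have h5 : (T : ℝ) * (K * β) / 2 ≤
      ∑ i ∈ range K, ((B i).card : ℝ) - K * (2 * δ * ((T + Mx : ℕ) : ℝ) * K) := by
    linarith
  have h6 : a * ((T : ℝ) * (K * β) / 2) ≤ (2 * T) * Real.sqrt (2 * K) := by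
    calc a * ((T : ℝ) * (K * β) / 2) ≤ a * (∑ i ∈ range K, ((B i).card : ℝ) -
          K * (2 * δ * ((T + Mx : ℕ) : ℝ) * K)) := mul_le_mul_of_nonneg_left h5 ha.le
      _ ≤ ((T + Mx : ℕ) : ℝ) * Real.sqrt (K + K ^ 2 * δ) := h1
      _ ≤ (2 * T) * Real.sqrt (2 * K) := by
          refine mul_le_mul hMT (Real.sqrt_le_sqrt ?_) (Real.sqrt_nonneg _) (by positivity)
          have : (K : ℝ) ^ 2 * δ = K * β / 8 := by
            rw [hδdef]
            field_simp
          rw [this]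
          nlinarith
  have h7 : a * (K * β) ≤ 4 * Real.sqrt (2 * K) := by
    have : (T : ℝ) * (a * (K * β)) ≤ T * (4 * Real.sqrt (2 * K)) := by linarith
    exact le_of_mul_le_mul_left this hTp
  have h8 : (a * (K * β)) ^ 2 ≤ 16 * (2 * K) := by
    calc (a * (K * β)) ^ 2 ≤ (4 * Real.sqrt (2 * K)) ^ 2 :=
          pow_le_pow_left₀ (by positivity) h7 2
      _ = 16 * (2 * K) := by
          rw [mul_pow, Real.sq_sqrt (by positivity)]
          norm_num
  rw [div_lt_iff₀ (by positivity)] at hK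
  nlinarith [mul_lt_mul_of_pos_left hK hK0]

/-- **Universally good weights.** If all correlations of the bounded sequence `w` at non-zero
shifts vanish, then the averages of `w_m g(S^m y)` tend to zero almost everywhere, for every
measure-preserving map and every bounded `g`. -/
theorem good_weight (w : ℕ → ℂ) (hb : ∀ m, ‖w m‖ ≤ 1)
    (hc : ∀ h : ℕ, 1 ≤ h → Tendsto (fun N : ℕ => (N : ℂ)⁻¹ *
      ∑ m ∈ Icc 1 N, w (m + h) * (starRingEnd ℂ) (w m)) atTop (𝓝 0))
    (ν : Measure Y) [IsProbabilityMeasure ν] (S : Y → Y)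
    (hS : MeasurePreserving S ν ν) (g : Y → ℂ) (hg : Measurable g) (hg1 : ∀ y, ‖g y‖ ≤ 1) :
    ∀ᵐ y ∂ν, Tendsto (fun N : ℕ => (N : ℂ)⁻¹ *
      ∑ m ∈ Icc 1 N, w m * g (S^[m] y)) atTop (𝓝 0) := by
  set w' : ℕ → ℂ := fun m => w (m + 1) with hw'
  have hwhite : White w' := by
    intro h hh
    refine (hc h hh).congr (fun J => ?_)
    rw [sum_Icc_one]
    congr 1
    refine Finset.sum_congr rfl (fun r _ => ?_)
    rw [hw']
    simp only
    congr 2
    omega
  have hnull : ∀ k : ℕ, ∀ᵐ y ∂ν, S y ∉ EE w' S g (1 / ((k : ℝ) + 1)) := by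
    intro k
    have h1 : ν (EE w' S g (1 / ((k : ℝ) + 1))) = 0 :=
      EE_null w' hwhite (fun m => hb _) ν hS hg hg1 (by positivity)
    have h2 : ∀ᵐ y ∂ν, y ∉ EE w' S g (1 / ((k : ℝ) + 1)) := by
      rw [ae_iff]
      simpa using h1
    exact hS.quasiMeasurePreserving.ae h2
  filter_upwards [ae_all_iff.2 hnull] with y hy
  rw [Metric.tendsto_atTop]
  intro ε hε
  obtain ⟨k, hk⟩ := exists_nat_one_div_lt hε
  have h3 := hy k
  unfold EE at h3
  rw [Set.mem_setOf_eq] at h3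
  push Not at h3
  obtain ⟨N₀, hN₀⟩ := h3
  refine ⟨N₀ + 1, fun N hN => ?_⟩
  have h4 := hN₀ N (by omega)
  have hNp : (0 : ℝ) < N := by exact_mod_cast (by omega : 0 < N)
  rw [dist_zero_right, norm_mul, norm_inv, Complex.norm_natCast, sum_Icc_one]
  have h5 : ‖∑ m ∈ range N, w (m + 1) * g (S^[m + 1] y)‖ < 1 / ((k : ℝ) + 1) * N := by
    refine lt_of_le_of_lt (le_of_eq ?_) h4
    congr 1
  rw [inv_mul_lt_iff₀ hNp]
  calc _ < 1 / ((k : ℝ) + 1) * N := h5
    _ ≤ ε * N := mul_le_mul_of_nonneg_right hk.le hNp.le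
    _ = N * ε := mul_comm _ _

end

end Pool.Agent.Rtt
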