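import Mathlib

set_option autoImplicit false

open Finset Filter Topology

namespace Pool.Agent.Rtt

/-- All correlations of `w` at non-zero shifts vanish. -/
def White (w : ℕ → ℂ) : Prop :=
  ∀ h : ℕ, 1 ≤ h → Tendsto (fun J : ℕ => (J : ℂ)⁻¹ *
    ∑ r ∈ range J, w (r + h) * (starRingEnd ℂ) (w r)) atTop (𝓝 0)

/-- The correlation sum of the initial segment with the segment starting at `r`. -/
noncomputable def cs (w : ℕ → ℂ) (n r : ℕ) : ℂ :=
  ∑ m ∈ range n, w m * (starRingEnd ℂ) (w (m + r))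

lemma tendsto_shift (a : ℕ → ℂ) (m : ℕ)
    (h : Tendsto (fun J : ℕ => (J : ℂ)⁻¹ * ∑ r ∈ range J, a r) atTop (𝓝 0)) :
    Tendsto (fun J : ℕ => (J : ℂ)⁻¹ * ∑ r ∈ range J, a (m + r)) atTop (𝓝 0) := by
  have h1 : ∀ J : ℕ, ∑ r ∈ range J, a (m + r) = ∑ r ∈ range (m + J), a r - ∑ r ∈ range m, a r := by
    intro J
    rw [Finset.sum_range_add_sub_sum_range a m J |>.symm] <;> ring_nf
  have h2 : Tendsto (fun J : ℕ => (((m + J : ℕ) : ℂ))⁻¹ * ∑ r ∈ range (m + J), a r) atTop (𝓝 0) := by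
    have := h.comp (tendsto_add_atTop_nat m)
    refine this.congr (fun J => ?_)
    simp only [Function.comp]
    rw [Nat.add_comm J m]
  have h3 : Tendsto (fun J : ℕ => (J : ℂ)⁻¹ * ((m + J : ℕ) : ℂ)) atTop (𝓝 1) := by
    have h4 : Tendsto (fun J : ℕ => (m : ℂ) * (J : ℂ)⁻¹ + 1) atTop (𝓝 ((m : ℂ) * 0 + 1)) := by
      refine (Tendsto.const_mul _ ?_).add_const _
      exact tendsto_inv_atTop_nhds_zero_nat (𝕜 := ℂ)
    simp only [mul_zero, zero_add] at h4
    refine h4.congr' ?_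
    filter_upwards [eventually_ge_atTop 1] with J hJ
    have : (J : ℂ) ≠ 0 := by exact_mod_cast (by omega : J ≠ 0)
    push_cast
    field_simp
  have h5 : Tendsto (fun J : ℕ => (J : ℂ)⁻¹ * ∑ r ∈ range m, a r) atTop (𝓝 0) := by
    have := (tendsto_inv_atTop_nhds_zero_nat (𝕜 := ℂ)).mul_const (∑ r ∈ range m, a r)
    simpa using this
  have h6 := (h3.mul h2).sub h5
  simp only [one_mul, sub_zero, mul_zero] at h6
  refine h6.congr' ?_
  filter_upwards [eventually_ge_atTop 1] with J hJ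
  have hJ0 : ((m + J : ℕ) : ℂ) ≠ 0 := by exact_mod_cast (by omega : m + J ≠ 0)
  rw [h1 J]
  rw [mul_sub]
  congr 1
  rw [mul_assoc, ← mul_assoc ((m + J : ℕ) : ℂ), mul_inv_cancel₀ hJ0, one_mul]

lemma White.off {w : ℕ → ℂ} (hw : White w) (m m' : ℕ) (hmm : m ≠ m') :
    Tendsto (fun J : ℕ => (J : ℂ)⁻¹ *
      ∑ r ∈ range J, (starRingEnd ℂ) (w (m + r)) * w (m' + r)) atTop (𝓝 0) := by
  rcases lt_or_gt_of_ne hmm with h | h
  · have h1 := tendsto_shift _ m (hw (m' - m) (by omega))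
    refine h1.congr (fun J => ?_)
    congr 1
    refine Finset.sum_congr rfl (fun r _ => ?_)
    rw [mul_comm]
    congr 2
    omega
  · have h1 := tendsto_shift _ m' (hw (m - m') (by omega))
    have h2 := (Complex.continuous_conj.tendsto 0).comp h1
    simp only [map_zero] at h2
    refine h2.congr (fun J => ?_)
    simp only [Function.comp, map_mul, map_inv₀, Complex.conj_natCast, map_sum,
      Complex.conj_conj]
    congr 1
    refine Finset.sum_congr rfl (fun r _ => ?_)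
    congr 3
    omega

/-- Second moment of the correlation sums. -/
lemma White.moment {w : ℕ → ℂ} (hw : White w) (hb : ∀ m, ‖w m‖ ≤ 1) (n : ℕ) (hn : 1 ≤ n) :
    ∀ᶠ J : ℕ in atTop, ∑ r ∈ range J, ‖cs w n r‖ ^ 2 ≤ 2 * n * J := by
  classical
  have hoff : Tendsto (fun J : ℕ => ∑ p ∈ (range n ×ˢ range n).filter (fun p => p.1 ≠ p.2),
      (w p.1 * (starRingEnd ℂ) (w p.2)) * ((J : ℂ)⁻¹ *
        ∑ r ∈ range J, (starRingEnd ℂ) (w (p.1 + r)) * w (p.2 + r))) atTop (𝓝 0) := by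
    rw [show (0 : ℂ) = ∑ p ∈ (range n ×ˢ range n).filter (fun p => p.1 ≠ p.2),
      (w p.1 * (starRingEnd ℂ) (w p.2)) * 0 by simp]
    refine tendsto_finset_sum _ (fun p hp => ?_)
    rw [Finset.mem_filter] at hp
    exact Tendsto.const_mul _ (hw.off p.1 p.2 hp.2)
  have h1 : ∀ᶠ J : ℕ in atTop, ‖∑ p ∈ (range n ×ˢ range n).filter (fun p => p.1 ≠ p.2),
      (w p.1 * (starRingEnd ℂ) (w p.2)) * ((J : ℂ)⁻¹ *
        ∑ r ∈ range J, (starRingEnd ℂ) (w (p.1 + r)) * w (p.2 + r))‖ < 1 := by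
    have := hoff.norm
    rw [norm_zero] at this
    exact this.eventually (gt_mem_nhds one_pos)
  filter_upwards [h1, eventually_ge_atTop 1] with J hJ hJ1
  have hJ0 : (J : ℂ) ≠ 0 := by exact_mod_cast (by omega : J ≠ 0)
  have hJp : (0 : ℝ) < J := by exact_mod_cast hJ1
  have hnp : (1 : ℝ) ≤ n := by exact_mod_cast hn
  -- expand
  have key : ((∑ r ∈ range J, ‖cs w n r‖ ^ 2 : ℝ) : ℂ) =
      ∑ p ∈ (range n ×ˢ range n), (w p.1 * (starRingEnd ℂ) (w p.2)) *
        ∑ r ∈ range J, (starRingEnd ℂ) (w (p.1 + r)) * w (p.2 + r) := by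
    push_cast
    have : ∀ r ∈ range J, ((‖cs w n r‖ : ℂ)) ^ 2 = ∑ p ∈ (range n ×ˢ range n),
        (w p.1 * (starRingEnd ℂ) (w p.2)) * ((starRingEnd ℂ) (w (p.1 + r)) * w (p.2 + r)) := by
      intro r _
      rw [← Complex.mul_conj' (cs w n r)]
      unfold cs
      rw [map_sum, Finset.sum_mul_sum, Finset.sum_product]
      refine Finset.sum_congr rfl (fun a _ => Finset.sum_congr rfl (fun b _ => ?_))
      simp only [map_mul, Complex.conj_conj]
      ring
    rw [Finset.sum_congr rfl this, Finset.sum_comm]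
    refine Finset.sum_congr rfl (fun p _ => ?_)
    rw [Finset.mul_sum]
  have hsplit := Finset.sum_filter_add_sum_filter_not (range n ×ˢ range n)
    (fun p : ℕ × ℕ => p.1 ≠ p.2) (fun p => (w p.1 * (starRingEnd ℂ) (w p.2)) *
        ∑ r ∈ range J, (starRingEnd ℂ) (w (p.1 + r)) * w (p.2 + r))
  have hA : ‖∑ p ∈ (range n ×ˢ range n).filter (fun p => p.1 ≠ p.2),
      (w p.1 * (starRingEnd ℂ) (w p.2)) *
        ∑ r ∈ range J, (starRingEnd ℂ) (w (p.1 + r)) * w (p.2 + r)‖ ≤ J := by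
    have e1 : ∑ p ∈ (range n ×ˢ range n).filter (fun p => p.1 ≠ p.2),
        (w p.1 * (starRingEnd ℂ) (w p.2)) *
          ∑ r ∈ range J, (starRingEnd ℂ) (w (p.1 + r)) * w (p.2 + r) =
        (J : ℂ) * ∑ p ∈ (range n ×ˢ range n).filter (fun p => p.1 ≠ p.2),
        (w p.1 * (starRingEnd ℂ) (w p.2)) * ((J : ℂ)⁻¹ *
          ∑ r ∈ range J, (starRingEnd ℂ) (w (p.1 + r)) * w (p.2 + r)) := by
      rw [Finset.mul_sum]
      refine Finset.sum_congr rfl (fun p _ => ?_)
      field_simp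
    rw [e1, norm_mul, Complex.norm_natCast]
    nlinarith [hJ]
  have hB : ‖∑ p ∈ (range n ×ˢ range n).filter (fun p => ¬ p.1 ≠ p.2),
      (w p.1 * (starRingEnd ℂ) (w p.2)) *
        ∑ r ∈ range J, (starRingEnd ℂ) (w (p.1 + r)) * w (p.2 + r)‖ ≤ n * J := by
    have hcard : ((range n ×ˢ range n).filter (fun p : ℕ × ℕ => ¬ p.1 ≠ p.2)).card = n := by
      have : (range n ×ˢ range n).filter (fun p : ℕ × ℕ => ¬ p.1 ≠ p.2) =
          (range n).image (fun a => (a, a)) := by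
        ext ⟨a, b⟩
        simp only [ne_eq, not_not, mem_filter, mem_product, mem_range, mem_image, Prod.mk.injEq]
        constructor
        · rintro ⟨⟨h1, h2⟩, h3⟩
          exact ⟨a, h1, rfl, h3⟩
        · rintro ⟨c, hc, rfl, rfl⟩
          exact ⟨⟨hc, hc⟩, rfl⟩
      rw [this, Finset.card_image_of_injective _ (fun a b h => by simpa using h), card_range]
    calc _ ≤ ∑ p ∈ (range n ×ˢ range n).filter (fun p : ℕ × ℕ => ¬ p.1 ≠ p.2), (J : ℝ) := by
          refine (norm_sum_le _ _).trans (Finset.sum_le_sum (fun p _ => ?_))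
          rw [norm_mul, norm_mul, RCLike.norm_conj]
          have e1 : ‖∑ r ∈ range J, (starRingEnd ℂ) (w (p.1 + r)) * w (p.2 + r)‖ ≤ J := by
            refine (norm_sum_le _ _).trans ?_
            calc _ ≤ ∑ r ∈ range J, (1 : ℝ) := by
                  refine Finset.sum_le_sum (fun r _ => ?_)
                  rw [norm_mul, RCLike.norm_conj]
                  exact mul_le_one₀ (hb _) (norm_nonneg _) (hb _)
              _ = J := by simp
          calc ‖w p.1‖ * ‖w p.2‖ * _ ≤ 1 * J := by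
                refine mul_le_mul (mul_le_one₀ (hb _) (norm_nonneg _) (hb _)) e1
                  (norm_nonneg _) zero_le_one
            _ = J := one_mul _
      _ = n * J := by rw [Finset.sum_const, hcard, nsmul_eq_mul]
  have hnn : (0 : ℝ) ≤ ∑ r ∈ range J, ‖cs w n r‖ ^ 2 :=
    Finset.sum_nonneg (fun _ _ => by positivity)
  have hfin : ‖((∑ r ∈ range J, ‖cs w n r‖ ^ 2 : ℝ) : ℂ)‖ ≤ J + n * J := by
    rw [key, ← hsplit]
    exact (norm_add_le _ _).trans (add_le_add hA hB)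
  rw [Complex.norm_real, Real.norm_of_nonneg hnn] at hfin
  nlinarith

end Pool.Agent.Rtt
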