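import Pool.Agent.Lib.Rtt.A

set_option autoImplicit false

open Finset Filter Topology

namespace Pool.Agent.Rtt

/-- `r` is a bad shift for the lengths in `[L, M]`. -/
def Bad (w : ℕ → ℂ) (δ : ℝ) (L M r : ℕ) : Prop :=
  ∃ n : ℕ, L ≤ n ∧ n ≤ M ∧ δ * n < ‖cs w n r‖

lemma sum_inv_sq (j₀ : ℕ) (hj : 1 ≤ j₀) (M : ℕ) :
    ∑ j ∈ Ico j₀ M, 1 / (j : ℝ) ^ 2 ≤ (2 : ℝ) / (j₀ : ℝ) := by
  rcases le_or_gt j₀ M with h | h
  · have key : ∑ j ∈ Ico j₀ M, 1 / (j : ℝ) ^ 2 ≤ (2 : ℝ) / (j₀ : ℝ) - (2 : ℝ) / (M : ℝ) := by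
      induction M, h using Nat.le_induction with
      | base => simp
      | succ M hM ih =>
        rw [Finset.sum_Ico_succ_top hM]
        have hMp : (1 : ℝ) ≤ M := by exact_mod_cast (by omega : 1 ≤ M)
        have : 1 / (M : ℝ) ^ 2 ≤ (2 : ℝ) / (M : ℝ) - (2 : ℝ) / ((M + 1 : ℕ) : ℝ) := by
          push_cast
          rw [div_sub_div _ _ (by positivity) (by positivity), div_le_div_iff₀ (by positivity)
            (by positivity)]
          nlinarith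
        linarith
    have : (0 : ℝ) ≤ (2 : ℝ) / (M : ℝ) := by positivity
    linarith
  · rw [Finset.Ico_eq_empty_of_le h.le]
    simp only [sum_empty]
    positivity

lemma cs_le (w : ℕ → ℂ) (hb : ∀ m, ‖w m‖ ≤ 1) (a b r : ℕ) (hab : a ≤ b) :
    ‖cs w b r‖ ≤ ‖cs w a r‖ + (b - a : ℕ) := by
  unfold cs
  rw [← Finset.sum_range_add_sum_Ico _ hab]
  refine (norm_add_le _ _).trans (add_le_add le_rfl ?_)
  refine (norm_sum_le _ _).trans ?_
  calc _ ≤ ∑ r ∈ Ico a b, (1 : ℝ) := by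
        refine Finset.sum_le_sum (fun m _ => ?_)
        rw [norm_mul, RCLike.norm_conj]
        exact mul_le_one₀ (hb _) (norm_nonneg _) (hb _)
    _ = _ := by simp

lemma White.density {w : ℕ → ℂ} (hw : White w) (hb : ∀ m, ‖w m‖ ≤ 1) {δ : ℝ} (hδ : 0 < δ) :
    ∃ L₀ : ℕ, 1 ≤ L₀ ∧ ∀ M : ℕ, ∃ J₀ : ℕ, ∀ J ≥ J₀,
      ∀ s : Finset ℕ, s ⊆ range J → (∀ r ∈ s, Bad w δ L₀ M r) → (s.card : ℝ) ≤ δ * J := by
  classical
  obtain ⟨j₀, hj₀⟩ := exists_nat_ge (max (4 / δ) (16 / δ ^ 3) + 1)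
  have hj1 : (1 : ℝ) ≤ j₀ := by
    have : 0 ≤ max (4 / δ) (16 / δ ^ 3) := le_max_of_le_left (by positivity)
    linarith
  have hja : 4 / δ ≤ j₀ := by
    have := le_max_left (4 / δ) (16 / δ ^ 3)
    linarith
  have hjb : 16 / δ ^ 3 ≤ j₀ := by
    have := le_max_right (4 / δ) (16 / δ ^ 3)
    linarith
  have hj1' : 1 ≤ j₀ := by exact_mod_cast hj1
  refine ⟨j₀ ^ 2, Nat.one_le_pow _ _ (by omega), fun M => ?_⟩
  have hev : ∀ᶠ J : ℕ in atTop, ∀ j ∈ Ico j₀ (M + 1),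
      ∑ r ∈ range J, ‖cs w (j ^ 2) r‖ ^ 2 ≤ 2 * ((j ^ 2 : ℕ) : ℝ) * J := by
    rw [Filter.eventually_all_finset]
    intro j hj
    rw [mem_Ico] at hj
    exact hw.moment hb (j ^ 2) (Nat.one_le_pow _ _ (by omega))
  obtain ⟨J₀, hJ₀⟩ := eventually_atTop.1 hev
  refine ⟨J₀, fun J hJ s hs hbad => ?_⟩
  have hm := hJ₀ J hJ
  -- every bad r lies in a level set
  have hcover : s ⊆ (Ico j₀ (M + 1)).biUnion
      (fun j => (range J).filter (fun r => δ / 2 * (j : ℝ) ^ 2 < ‖cs w (j ^ 2) r‖)) := by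
    intro r hr
    obtain ⟨n, h1, h2, h3⟩ := hbad r hr
    set j := Nat.sqrt n with hjdef
    have ha : j ^ 2 ≤ n := by rw [pow_two]; exact Nat.sqrt_le n
    have hb' : n ≤ j * j + j + j := Nat.sqrt_le_add n
    have hjj : j₀ ≤ j := by
      rw [hjdef, Nat.le_sqrt, ← pow_two]
      exact h1
    rw [Finset.mem_biUnion]
    refine ⟨j, ?_, ?_⟩
    · rw [mem_Ico]
      refine ⟨hjj, ?_⟩
      have : j ≤ n := Nat.sqrt_le_self n
      omega
    · rw [mem_filter]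
      refine ⟨hs hr, ?_⟩
      have h4 := cs_le w hb (j ^ 2) n r ha
      have h5 : ((n - j ^ 2 : ℕ) : ℝ) ≤ 2 * j := by
        have : n - j ^ 2 ≤ 2 * j := by
          rw [pow_two]; omega
        exact_mod_cast this
      have h6 : ((j : ℝ)) ^ 2 ≤ n := by exact_mod_cast ha
      have h7 : 4 ≤ δ * j := by
        have : (4 : ℝ) / δ ≤ j := hja.trans (by exact_mod_cast hjj)
        rw [div_le_iff₀ hδ] at this
        linarith
      have hjp : (0 : ℝ) ≤ j := by positivity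
      nlinarith [mul_le_mul_of_nonneg_left h6 hδ.le, mul_nonneg hjp (sub_nonneg.2 h7)]
  have hlev : ∀ j ∈ Ico j₀ (M + 1),
      (((range J).filter (fun r => δ / 2 * (j : ℝ) ^ 2 < ‖cs w (j ^ 2) r‖)).card : ℝ) ≤
        8 * J / δ ^ 2 * (1 / (j : ℝ) ^ 2) := by
    intro j hj
    have h1 := hm j hj
    rw [mem_Ico] at hj
    have hjp : (1 : ℝ) ≤ j := hj1.trans (by exact_mod_cast hj.1)
    have h2 : (((range J).filter (fun r => δ / 2 * (j : ℝ) ^ 2 < ‖cs w (j ^ 2) r‖)).card : ℝ) *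
        (δ / 2 * (j : ℝ) ^ 2) ^ 2 ≤ ∑ r ∈ range J, ‖cs w (j ^ 2) r‖ ^ 2 := by
      rw [← nsmul_eq_mul, ← Finset.sum_const]
      calc _ ≤ ∑ r ∈ (range J).filter (fun r => δ / 2 * (j : ℝ) ^ 2 < ‖cs w (j ^ 2) r‖),
            ‖cs w (j ^ 2) r‖ ^ 2 := by
            refine Finset.sum_le_sum (fun r hr => ?_)
            rw [mem_filter] at hr
            exact pow_le_pow_left₀ (by positivity) hr.2.le 2
        _ ≤ _ := Finset.sum_le_sum_of_subset_of_nonneg (filter_subset _ _)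
            (fun _ _ _ => by positivity)
    have h3 := h2.trans h1
    rw [div_mul_div_comm, mul_one, le_div_iff₀ (by positivity)]
    push_cast at h3
    have hj4 : (0 : ℝ) < (j : ℝ) ^ 2 := by positivity
    have h5 : (((range J).filter (fun r => δ / 2 * (j : ℝ) ^ 2 < ‖cs w (j ^ 2) r‖)).card : ℝ) *
        (δ ^ 2 * (j : ℝ) ^ 2) * (j : ℝ) ^ 2 ≤ (8 * J) * (j : ℝ) ^ 2 := by
      nlinarith [h3]
    exact le_of_mul_le_mul_right h5 hj4
  calc (s.card : ℝ) ≤ ((Ico j₀ (M + 1)).biUnion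
      (fun j => (range J).filter (fun r => δ / 2 * (j : ℝ) ^ 2 < ‖cs w (j ^ 2) r‖))).card := by
        exact_mod_cast Finset.card_le_card hcover
    _ ≤ ∑ j ∈ Ico j₀ (M + 1),
        (((range J).filter (fun r => δ / 2 * (j : ℝ) ^ 2 < ‖cs w (j ^ 2) r‖)).card : ℝ) := by
        exact_mod_cast Finset.card_biUnion_le
    _ ≤ ∑ j ∈ Ico j₀ (M + 1), 8 * J / δ ^ 2 * (1 / (j : ℝ) ^ 2) := Finset.sum_le_sum hlev
    _ = 8 * J / δ ^ 2 * ∑ j ∈ Ico j₀ (M + 1), 1 / (j : ℝ) ^ 2 := by rw [Finset.mul_sum]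
    _ ≤ 8 * J / δ ^ 2 * (2 / j₀) :=
        mul_le_mul_of_nonneg_left (sum_inv_sq j₀ hj1' _) (by positivity)
    _ ≤ δ * J := by
        rw [div_le_iff₀ (by positivity)] at hjb
        rw [div_mul_div_comm, div_le_iff₀ (by positivity)]
        have hJp : (0 : ℝ) ≤ J := by positivity
        nlinarith [mul_le_mul_of_nonneg_right hjb hJp]

end Pool.Agent.Rtt
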