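import Pool.Agent.Lib.Rtt.B

set_option autoImplicit false

open Finset Filter Topology

namespace Pool.Agent.Rtt

/-- Greedy choice of disjoint intervals covering `B`. -/
lemma greedy (n : ℕ → ℕ) : ∀ (k : ℕ) (B : Finset ℕ), B.card ≤ k → (∀ t ∈ B, 1 ≤ n t) →
    ∃ I ⊆ B, (∀ t ∈ I, ∀ t' ∈ I, t < t' → t + n t ≤ t') ∧ B.card ≤ ∑ t ∈ I, n t := by
  classical
  intro k
  induction k with
  | zero =>
    intro B hB _
    have : B = ∅ := Finset.card_eq_zero.1 (by omega)
    subst this
    exact ⟨∅, by simp, by simp, by simp⟩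
  | succ k ih =>
    intro B hB hn
    rcases B.eq_empty_or_nonempty with h | h
    · subst h
      exact ⟨∅, by simp, by simp, by simp⟩
    · set t₀ := B.min' h with ht₀
      have ht : t₀ ∈ B := B.min'_mem h
      set B' := B.filter (fun t => t₀ + n t₀ ≤ t) with hB'
      have hn0 := hn t₀ ht
      have hcard : B.card ≤ n t₀ + B'.card := by
        have h1 := Finset.card_filter_add_card_filter_not (s := B) (fun t => t₀ + n t₀ ≤ t)
        have h2 : (B.filter (fun t => ¬ t₀ + n t₀ ≤ t)).card ≤ n t₀ := by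
          have : B.filter (fun t => ¬ t₀ + n t₀ ≤ t) ⊆ Ico t₀ (t₀ + n t₀) := by
            intro t ht'
            rw [mem_filter] at ht'
            rw [mem_Ico]
            exact ⟨B.min'_le t ht'.1, by omega⟩
          have := Finset.card_le_card this
          simpa using this
        rw [hB']
        omega
      have hlt : B'.card < B.card := by
        apply Finset.card_lt_card
        rw [Finset.ssubset_iff_of_subset (filter_subset _ _)]
        exact ⟨t₀, ht, by simp [hB']; omega⟩
      obtain ⟨I, hI, hd, hc⟩ := ih B' (by omega) (fun t h' => hn t (mem_of_mem_filter t h'))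
      refine ⟨insert t₀ I, ?_, ?_, ?_⟩
      · intro t h'
        rw [mem_insert] at h'
        rcases h' with rfl | h'
        · exact ht
        · exact mem_of_mem_filter t (hI h')
      · intro t h1 t' h2 hlt'
        rw [mem_insert] at h1 h2
        rcases h1 with rfl | h1
        · rcases h2 with rfl | h2
          · omega
          · exact (mem_filter.1 (hI h2)).2
        · rcases h2 with rfl | h2
          · have := B.min'_le t (mem_of_mem_filter t (hI h1))
            omega
          · exact hd t h1 t' h2 hlt'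
      · have hnot : t₀ ∉ I := by
          intro h'
          have := (mem_filter.1 (hI h')).2
          omega
        rw [Finset.sum_insert hnot]
        omega

/-- A level: starting points, lengths, phases. -/
structure Lev where
  I : Finset ℕ
  n : ℕ → ℕ
  σ : ℕ → ℂ

/-- The function of a level. -/
noncomputable def Lev.c (v : Lev) (w : ℕ → ℂ) (s : ℕ) : ℂ :=
  ∑ t ∈ v.I, if t ≤ s ∧ s < t + v.n t then (starRingEnd ℂ) (v.σ t * w (s - t)) else 0

/-- Lengths in `[L, M]`, disjoint intervals inside `[0, J)`, phases at most one. -/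
structure Lev.Good (v : Lev) (J L M : ℕ) : Prop where
  lo : ∀ t ∈ v.I, L ≤ v.n t
  hi : ∀ t ∈ v.I, v.n t ≤ M
  inside : ∀ t ∈ v.I, t + v.n t ≤ J
  phase : ∀ t, ‖v.σ t‖ ≤ 1
  disj : ∀ t ∈ v.I, ∀ t' ∈ v.I, t < t' → t + v.n t ≤ t'

lemma Lev.Good.sum_len {v : Lev} {J L M : ℕ} (h : v.Good J L M) : ∑ t ∈ v.I, v.n t ≤ J := by
  classical
  have h1 : ∑ t ∈ v.I, v.n t = (v.I.biUnion (fun t => Ico t (t + v.n t))).card := by
    rw [Finset.card_biUnion]
    · simp
    · intro t ht t' ht' hne
      rw [Function.onFun, Finset.disjoint_left]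
      intro s hs hs'
      rw [mem_Ico] at hs hs'
      rcases lt_or_gt_of_ne hne with hlt | hlt
      · have := h.disj t ht t' ht' hlt
        omega
      · have := h.disj t' ht' t ht hlt
        omega
  rw [h1]
  calc _ ≤ (range J).card := by
        apply Finset.card_le_card
        intro s hs
        rw [mem_biUnion] at hs
        obtain ⟨t, ht, hs⟩ := hs
        rw [mem_Ico] at hs
        have := h.inside t ht
        rw [mem_range]
        omega
    _ = J := card_range J

lemma Lev.Good.c_mem {v : Lev} {J L M : ℕ} (h : v.Good J L M) (w : ℕ → ℂ) {s t : ℕ}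
    (ht : t ∈ v.I) (h1 : t ≤ s) (h2 : s < t + v.n t) :
    v.c w s = (starRingEnd ℂ) (v.σ t * w (s - t)) := by
  unfold Lev.c
  rw [Finset.sum_eq_single t]
  · rw [if_pos ⟨h1, h2⟩]
  · intro t' ht' hne
    rw [if_neg]
    rintro ⟨h3, h4⟩
    rcases lt_or_gt_of_ne hne with hlt | hlt
    · have := h.disj t' ht' t ht hlt
      omega
    · have := h.disj t ht t' ht' hlt
      omega
  · intro h'
    exact absurd ht h'

lemma Lev.c_zero {v : Lev} (w : ℕ → ℂ) {s : ℕ}
    (h : ∀ t ∈ v.I, ¬ (t ≤ s ∧ s < t + v.n t)) : v.c w s = 0 := by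
  unfold Lev.c
  refine Finset.sum_eq_zero (fun t ht => ?_)
  rw [if_neg (h t ht)]

lemma Lev.Good.norm_c {v : Lev} {J L M : ℕ} (h : v.Good J L M) (w : ℕ → ℂ)
    (hb : ∀ m, ‖w m‖ ≤ 1) (s : ℕ) : ‖v.c w s‖ ≤ 1 := by
  by_cases hex : ∃ t ∈ v.I, t ≤ s ∧ s < t + v.n t
  · obtain ⟨t, ht, h1, h2⟩ := hex
    rw [h.c_mem w ht h1 h2, RCLike.norm_conj, norm_mul]
    exact mul_le_one₀ (h.phase t) (norm_nonneg _) (hb _)
  · push Not at hex
    rw [Lev.c_zero w (fun t ht h3 => by
      have := hex t ht h3.1
      omega), norm_zero]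
    exact zero_le_one

lemma Lev.Good.pair {v : Lev} {J L M : ℕ} (h : v.Good J L M) (w u : ℕ → ℂ) :
    ∑ s ∈ range J, u s * (starRingEnd ℂ) (v.c w s) =
      ∑ t ∈ v.I, v.σ t * ∑ m ∈ range (v.n t), w m * u (t + m) := by
  have h1 : ∀ s ∈ range J, u s * (starRingEnd ℂ) (v.c w s) =
      ∑ t ∈ v.I, if t ≤ s ∧ s < t + v.n t then u s * (v.σ t * w (s - t)) else 0 := by
    intro s _
    unfold Lev.c
    rw [map_sum, Finset.mul_sum]
    refine Finset.sum_congr rfl (fun t _ => ?_)
    split_ifs
    · rw [Complex.conj_conj]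
    · simp
  rw [Finset.sum_congr rfl h1, Finset.sum_comm]
  refine Finset.sum_congr rfl (fun t ht => ?_)
  rw [← Finset.sum_filter]
  have h2 : (range J).filter (fun s => t ≤ s ∧ s < t + v.n t) = Ico t (t + v.n t) := by
    ext s
    have := h.inside t ht
    simp only [mem_filter, mem_range, mem_Ico]
    constructor
    · exact fun h => h.2
    · exact fun h => ⟨by omega, h⟩
  rw [h2, Finset.sum_Ico_eq_sum_range]
  rw [Nat.add_sub_cancel_left, Finset.mul_sum]
  refine Finset.sum_congr rfl (fun m _ => ?_)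
  rw [Nat.add_sub_cancel_left]
  ring

/-- The position of a short interval (length at most `M`) starting at `t` relative to a long
interval `[t', t' + n')`: inside at a good shift, or disjoint. -/
def Ok (w : ℕ → ℂ) (δ : ℝ) (L₀ M t t' n' : ℕ) : Prop :=
  (t' ≤ t ∧ t + M ≤ t' + n' ∧ ¬ Bad w δ L₀ M (t - t')) ∨ t + M ≤ t' ∨ t' + n' ≤ t

lemma Lev.Good.orth {v v' : Lev} {J L M L' M' L₀ : ℕ} (h : v.Good J L M) (h' : v'.Good J L' M')
    (w : ℕ → ℂ) {δ : ℝ} (hL : L₀ ≤ L')
    (hok : ∀ t ∈ v'.I, ∀ t' ∈ v.I, Ok w δ L₀ M' t t' (v.n t')) (hδ : 0 ≤ δ) :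
    ‖∑ s ∈ range J, v.c w s * (starRingEnd ℂ) (v'.c w s)‖ ≤ δ * J := by
  rw [h'.pair w (v.c w)]
  have key : ∀ t ∈ v'.I, ‖v'.σ t * ∑ m ∈ range (v'.n t), w m * v.c w (t + m)‖ ≤
      δ * v'.n t := by
    intro t ht
    have hlo := h'.lo t ht
    have hhi := h'.hi t ht
    by_cases hex : ∃ t' ∈ v.I, t' ≤ t ∧ t + M' ≤ t' + v.n t' ∧ ¬ Bad w δ L₀ M' (t - t')
    · obtain ⟨t', ht', h1, h2, h3⟩ := hex
      have h4 : ∑ m ∈ range (v'.n t), w m * v.c w (t + m) =
          (starRingEnd ℂ) (v.σ t') * cs w (v'.n t) (t - t') := by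
        unfold cs
        rw [Finset.mul_sum]
        refine Finset.sum_congr rfl (fun m hm => ?_)
        rw [mem_range] at hm
        rw [h.c_mem w ht' (by omega) (by omega), map_mul,
          show t + m - t' = m + (t - t') by omega]
        ring
      have h5 : ‖cs w (v'.n t) (t - t')‖ ≤ δ * v'.n t := by
        by_contra hcon
        push Not at hcon
        exact h3 ⟨v'.n t, hL.trans hlo, hhi, hcon⟩
      rw [h4, norm_mul, norm_mul, RCLike.norm_conj]
      calc _ ≤ 1 * (1 * ‖cs w (v'.n t) (t - t')‖) := by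
            refine mul_le_mul (h'.phase t) ?_ (by positivity) zero_le_one
            exact mul_le_mul_of_nonneg_right (h.phase t') (norm_nonneg _)
        _ ≤ _ := by rw [one_mul, one_mul]; exact h5
    · push Not at hex
      have h4 : ∑ m ∈ range (v'.n t), w m * v.c w (t + m) = 0 := by
        refine Finset.sum_eq_zero (fun m hm => ?_)
        rw [mem_range] at hm
        rw [Lev.c_zero w, mul_zero]
        rintro t' ht' ⟨h5, h6⟩
        rcases hok t ht t' ht' with h7 | h7 | h7
        · exact h7.2.2 (hex t' ht' h7.1 h7.2.1)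
        · omega
        · omega
      rw [h4, mul_zero, norm_zero]
      positivity
  calc _ ≤ ∑ t ∈ v'.I, δ * v'.n t := (norm_sum_le _ _).trans (Finset.sum_le_sum key)
    _ = δ * ((∑ t ∈ v'.I, v'.n t : ℕ) : ℝ) := by push_cast; rw [Finset.mul_sum]
    _ ≤ δ * J := mul_le_mul_of_nonneg_left (by exact_mod_cast h'.sum_len) hδ

/-- Few starting points are not `Ok` for a given long interval. -/
lemma card_not_ok (w : ℕ → ℂ) {δ : ℝ} (L₀ M n' t' : ℕ) (s : Finset ℕ)
    (hM : 2 * (M : ℝ) ≤ δ * n')
    (hbad : ∀ s : Finset ℕ, s ⊆ range n' → (∀ r ∈ s, Bad w δ L₀ M r) → (s.card : ℝ) ≤ δ * n')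
    (hs : ∀ t ∈ s, ¬ Ok w δ L₀ M t t' n') : (s.card : ℝ) ≤ 2 * δ * n' := by
  classical
  set s₁ := s.filter (fun t => t' ≤ t ∧ t + M ≤ t' + n') with hs₁
  set s₂ := s.filter (fun t => ¬ (t' ≤ t ∧ t + M ≤ t' + n')) with hs₂
  have h0 : s.card = s₁.card + s₂.card :=
    (Finset.card_filter_add_card_filter_not (s := s) _).symm
  have h1 : (s₁.card : ℝ) ≤ δ * n' := by
    have hinj : (s₁.image (fun t => t - t')).card = s₁.card := by
      apply Finset.card_image_of_injOn
      intro a ha b hb hab
      rw [hs₁, mem_coe, mem_filter] at ha hb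
      simp only at hab
      omega
    rw [← hinj]
    by_cases hM0 : M = 0
    · -- no bad shift of length zero can be counted twice; use the same bound
      refine hbad _ ?_ ?_
      · intro r hr
        rw [mem_image] at hr
        obtain ⟨t, ht, rfl⟩ := hr
        rw [hs₁, mem_filter] at ht
        rw [mem_range]
        have hnot := hs t ht.1
        by_contra hcon
        apply hnot
        right; right
        omega
      · intro r hr
        rw [mem_image] at hr
        obtain ⟨t, ht, rfl⟩ := hr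
        rw [hs₁, mem_filter] at ht
        have hnot := hs t ht.1
        by_contra hcon
        exact hnot (Or.inl ⟨ht.2.1, ht.2.2, hcon⟩)
    · refine hbad _ ?_ ?_
      · intro r hr
        rw [mem_image] at hr
        obtain ⟨t, ht, rfl⟩ := hr
        rw [hs₁, mem_filter] at ht
        rw [mem_range]
        omega
      · intro r hr
        rw [mem_image] at hr
        obtain ⟨t, ht, rfl⟩ := hr
        rw [hs₁, mem_filter] at ht
        have hnot := hs t ht.1
        by_contra hcon
        exact hnot (Or.inl ⟨ht.2.1, ht.2.2, hcon⟩)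
  have h2 : (s₂.card : ℝ) ≤ 2 * M := by
    have hsub : s₂ ⊆ Ico (t' - M) t' ∪ Ico (t' + n' - M) (t' + n') := by
      intro t ht
      rw [hs₂, mem_filter] at ht
      have hnot := hs t ht.1
      unfold Ok at hnot
      push Not at hnot
      obtain ⟨_, h3, h4⟩ := hnot
      rw [mem_union, mem_Ico, mem_Ico]
      rcases le_or_gt t' t with h5 | h5
      · right
        have : ¬ (t + M ≤ t' + n') := fun h6 => ht.2 ⟨h5, h6⟩
        omega
      · left
        omega
    have h3 := (Finset.card_le_card hsub).trans (Finset.card_union_le _ _)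
    rw [Nat.card_Ico, Nat.card_Ico] at h3
    have h4 : s₂.card ≤ 2 * M := by omega
    exact_mod_cast h4
  rw [h0]
  push_cast
  linarith

end Pool.Agent.Rtt
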