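import Pool.Agent.Lib.Rtt.C

set_option autoImplicit false

open Finset Filter Topology

namespace Pool.Agent.Rtt

/-- The twisted sum at the starting point `t`. -/
noncomputable def tw (w u : ℕ → ℂ) (t n : ℕ) : ℂ := ∑ m ∈ range n, w m * u (t + m)

/-- The hypotheses on the scales. -/
structure Scales (w : ℕ → ℂ) (δ : ℝ) (L₀ K : ℕ) (L M : ℕ → ℕ) : Prop where
  lo : ∀ i < K, L₀ ≤ L i
  one : ∀ i < K, 1 ≤ L i
  gap : ∀ i < K, ∀ j < K, i < j → 2 * (M i : ℝ) ≤ δ * L j
  bad : ∀ i < K, ∀ j < K, i < j → ∀ R : ℕ, L j ≤ R → ∀ s : Finset ℕ, s ⊆ range R →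
    (∀ r ∈ s, Bad w δ L₀ (M i) r) → (s.card : ℝ) ≤ δ * R

/-- What the level `i` has to satisfy. -/
structure Fits (w u : ℕ → ℂ) (δ a : ℝ) (L₀ K : ℕ) (L M : ℕ → ℕ) (J : ℕ) (B : ℕ → Finset ℕ)
    (v : ℕ → Lev) (i : ℕ) : Prop where
  good : (v i).Good J (L i) (M i)
  len : ((B i).card : ℝ) - 2 * δ * J * K ≤ ((∑ t ∈ (v i).I, (v i).n t : ℕ) : ℝ)
  ph : ∀ t ∈ (v i).I, (v i).σ t * tw w u t ((v i).n t) = (‖tw w u t ((v i).n t)‖ : ℂ)
  big : ∀ t ∈ (v i).I, a * (v i).n t ≤ ‖tw w u t ((v i).n t)‖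
  ok : ∀ j, i < j → j < K → ∀ t ∈ (v i).I, ∀ t' ∈ (v j).I,
    Ok w δ L₀ (M i) t t' ((v j).n t')

lemma levels (w u : ℕ → ℂ) {δ a : ℝ} (hδ : 0 ≤ δ) (L₀ K : ℕ) (L M : ℕ → ℕ)
    (hS : Scales w δ L₀ K L M) (J : ℕ) (B : ℕ → Finset ℕ)
    (hBJ : ∀ i < K, ∀ t ∈ B i, t + M i ≤ J)
    (hBn : ∀ i < K, ∀ t ∈ B i, ∃ n, L i ≤ n ∧ n ≤ M i ∧ a * n ≤ ‖tw w u t n‖) :
    ∀ k ≤ K, ∃ v : ℕ → Lev, ∀ i, K - k ≤ i → i < K → Fits w u δ a L₀ K L M J B v i := by
  classical
  intro k
  induction k with
  | zero =>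
    intro _
    exact ⟨fun _ => ⟨∅, fun _ => 0, fun _ => 0⟩, fun i h1 h2 => by omega⟩
  | succ k ih =>
    intro hk
    obtain ⟨v, hv⟩ := ih (by omega)
    set i₀ := K - (k + 1) with hi₀
    have hi₀K : i₀ < K := by omega
    -- allowed starting points
    set B' := (B i₀).filter (fun t => ∀ j, i₀ < j → j < K → ∀ t' ∈ (v j).I,
      Ok w δ L₀ (M i₀) t t' ((v j).n t')) with hB'
    have hex : ((B i₀).card : ℝ) - 2 * δ * J * K ≤ (B'.card : ℝ) := by
      have h0 := Finset.card_filter_add_card_filter_not (s := B i₀)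
        (fun t => ∀ j, i₀ < j → j < K → ∀ t' ∈ (v j).I, Ok w δ L₀ (M i₀) t t' ((v j).n t'))
      have hsub : (B i₀).filter (fun t => ¬ ∀ j, i₀ < j → j < K → ∀ t' ∈ (v j).I,
          Ok w δ L₀ (M i₀) t t' ((v j).n t')) ⊆ (Ioo i₀ K).biUnion (fun j =>
            (v j).I.biUnion (fun t' => (B i₀).filter
              (fun t => ¬ Ok w δ L₀ (M i₀) t t' ((v j).n t')))) := by
        intro t ht
        rw [mem_filter] at ht
        push Not at ht
        obtain ⟨ht1, j, hj1, hj2, t', ht', hno⟩ := ht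
        rw [mem_biUnion]
        refine ⟨j, mem_Ioo.2 ⟨hj1, hj2⟩, ?_⟩
        rw [mem_biUnion]
        exact ⟨t', ht', mem_filter.2 ⟨ht1, hno⟩⟩
      have h1 : (((B i₀).filter (fun t => ¬ ∀ j, i₀ < j → j < K → ∀ t' ∈ (v j).I,
          Ok w δ L₀ (M i₀) t t' ((v j).n t'))).card : ℝ) ≤ 2 * δ * J * K := by
        calc _ ≤ (((Ioo i₀ K).biUnion (fun j =>
            (v j).I.biUnion (fun t' => (B i₀).filter
              (fun t => ¬ Ok w δ L₀ (M i₀) t t' ((v j).n t'))))).card : ℝ) := by
              exact_mod_cast Finset.card_le_card hsub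
          _ ≤ ∑ j ∈ Ioo i₀ K, (((v j).I.biUnion (fun t' => (B i₀).filter
              (fun t => ¬ Ok w δ L₀ (M i₀) t t' ((v j).n t')))).card : ℝ) := by
              exact_mod_cast Finset.card_biUnion_le
          _ ≤ ∑ j ∈ Ioo i₀ K, 2 * δ * J := by
              refine Finset.sum_le_sum (fun j hj => ?_)
              rw [mem_Ioo] at hj
              have hfit := hv j (by omega) hj.2
              calc _ ≤ ∑ t' ∈ (v j).I, (((B i₀).filter
                    (fun t => ¬ Ok w δ L₀ (M i₀) t t' ((v j).n t'))).card : ℝ) := by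
                    exact_mod_cast Finset.card_biUnion_le
                _ ≤ ∑ t' ∈ (v j).I, 2 * δ * (v j).n t' := by
                    refine Finset.sum_le_sum (fun t' ht' => ?_)
                    have hlo := hfit.good.lo t' ht'
                    refine card_not_ok w L₀ (M i₀) ((v j).n t') t' _ ?_ ?_ ?_
                    · refine (hS.gap i₀ hi₀K j hj.2 hj.1).trans ?_
                      exact mul_le_mul_of_nonneg_left (by exact_mod_cast hlo) hδ
                    · exact hS.bad i₀ hi₀K j hj.2 hj.1 _ hlo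
                    · intro t ht
                      exact (mem_filter.1 ht).2
                _ = 2 * δ * ((∑ t' ∈ (v j).I, (v j).n t' : ℕ) : ℝ) := by
                    push_cast
                    rw [Finset.mul_sum]
                _ ≤ 2 * δ * J := by
                    refine mul_le_mul_of_nonneg_left ?_ (by positivity)
                    exact_mod_cast hfit.good.sum_len
          _ ≤ 2 * δ * J * K := by
              rw [Finset.sum_const, nsmul_eq_mul, mul_comm]
              refine mul_le_mul_of_nonneg_left ?_ (by positivity)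
              rw [Nat.card_Ioo]
              exact_mod_cast (by omega : K - i₀ - 1 ≤ K)
      have h2 : ((B i₀).card : ℝ) = B'.card + ((B i₀).filter (fun t => ¬ ∀ j, i₀ < j → j < K →
          ∀ t' ∈ (v j).I, Ok w δ L₀ (M i₀) t t' ((v j).n t'))).card := by
        rw [← h0]
        push_cast
        rfl
      linarith
    -- lengths
    have hch : ∀ t, ∃ n, t ∈ B i₀ → L i₀ ≤ n ∧ n ≤ M i₀ ∧ a * n ≤ ‖tw w u t n‖ := by
      intro t
      by_cases ht : t ∈ B i₀
      · obtain ⟨n, hn⟩ := hBn i₀ hi₀K t ht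
        exact ⟨n, fun _ => hn⟩
      · exact ⟨0, fun h => absurd h ht⟩
    choose n hn using hch
    have hB'B : B' ⊆ B i₀ := filter_subset _ _
    obtain ⟨I, hI, hdis, hcard⟩ := greedy n B'.card B' le_rfl (fun t ht => by
      have := (hn t (hB'B ht)).1
      have := hS.one i₀ hi₀K
      omega)
    set new : Lev := ⟨I, n, fun t => if tw w u t (n t) = 0 then 0 else
      (starRingEnd ℂ) (tw w u t (n t)) / (‖tw w u t (n t)‖ : ℂ)⟩ with hnew
    refine ⟨Function.update v i₀ new, fun i h1 h2 => ?_⟩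
    have hup : ∀ j, i₀ < j → Function.update v i₀ new j = v j := by
      intro j hj
      rw [Function.update_of_ne (by omega)]
    rcases eq_or_lt_of_le h1 with h3 | h3
    · -- the new level
      have h3' : i = i₀ := by omega
      subst h3'
      have hself : Function.update v i₀ new i₀ = new := Function.update_self _ _ _
      refine ⟨?_, ?_, ?_, ?_, ?_⟩
      · rw [hself]
        refine ⟨?_, ?_, ?_, ?_, ?_⟩
        · intro t ht
          exact (hn t (hB'B (hI ht))).1
        · intro t ht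
          exact (hn t (hB'B (hI ht))).2.1
        · intro t ht
          have h4 := (hn t (hB'B (hI ht))).2.1
          have h5 := hBJ i₀ hi₀K t (hB'B (hI ht))
          show t + n t ≤ J
          omega
        · intro t
          show ‖(if tw w u t (n t) = 0 then 0 else
            (starRingEnd ℂ) (tw w u t (n t)) / (‖tw w u t (n t)‖ : ℂ))‖ ≤ 1
          split_ifs with h6
          · rw [norm_zero]; exact zero_le_one
          · rw [norm_div, RCLike.norm_conj, Complex.norm_real, norm_norm,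
              div_self (norm_ne_zero_iff.2 h6)]
        · exact hdis
      · rw [hself]
        refine hex.trans ?_
        exact_mod_cast hcard
      · rw [hself]
        intro t ht
        show (if tw w u t (n t) = 0 then 0 else
            (starRingEnd ℂ) (tw w u t (n t)) / (‖tw w u t (n t)‖ : ℂ)) * tw w u t (n t) =
            (‖tw w u t (n t)‖ : ℂ)
        split_ifs with h6
        · rw [h6]; simp
        · have h7 : (‖tw w u t (n t)‖ : ℂ) ≠ 0 := by
            exact_mod_cast norm_ne_zero_iff.2 h6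
          rw [div_mul_eq_mul_div, div_eq_iff h7, Complex.conj_mul', pow_two]
      · rw [hself]
        intro t ht
        exact (hn t (hB'B (hI ht))).2.2
      · intro j hj1 hj2
        rw [hself, hup j hj1]
        intro t ht t' ht'
        exact (mem_filter.1 (hI ht)).2 j hj1 hj2 t' ht'
    · -- an old level
      have h4 := hv i (by omega) h2
      have h5 := hup i (by omega)
      refine ⟨?_, ?_, ?_, ?_, ?_⟩
      · rw [h5]; exact h4.good
      · rw [h5]; exact h4.len
      · rw [h5]; exact h4.ph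
      · rw [h5]; exact h4.big
      · intro j hj1 hj2
        rw [h5, hup j (by omega)]
        exact h4.ok j hj1 hj2

/-- The deterministic core. -/
theorem core (w u : ℕ → ℂ) (hb : ∀ m, ‖w m‖ ≤ 1) (hu : ∀ m, ‖u m‖ ≤ 1) {δ a : ℝ}
    (hδ : 0 ≤ δ) (ha : 0 ≤ a) (L₀ K : ℕ) (L M : ℕ → ℕ)
    (hS : Scales w δ L₀ K L M) (J : ℕ) (B : ℕ → Finset ℕ)
    (hBJ : ∀ i < K, ∀ t ∈ B i, t + M i ≤ J)
    (hBn : ∀ i < K, ∀ t ∈ B i, ∃ n, L i ≤ n ∧ n ≤ M i ∧ a * n ≤ ‖tw w u t n‖) :
    a * ∑ i ∈ range K, (((B i).card : ℝ) - 2 * δ * J * K) ≤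
      J * Real.sqrt (K + K ^ 2 * δ) := by
  classical
  obtain ⟨v, hv⟩ := levels w u hδ L₀ K L M hS J B hBJ hBn K le_rfl
  have hv : ∀ i < K, Fits w u δ a L₀ K L M J B v i := fun i hi => hv i (by omega) hi
  set S : ℕ → ℂ := fun s => ∑ i ∈ range K, (v i).c w s with hSdef
  -- the main term
  have h1 : ∑ s ∈ range J, u s * (starRingEnd ℂ) (S s) =
      ((∑ i ∈ range K, ∑ t ∈ (v i).I, ‖tw w u t ((v i).n t)‖ : ℝ) : ℂ) := by
    have e1 : ∀ s ∈ range J, u s * (starRingEnd ℂ) (S s) =
        ∑ i ∈ range K, u s * (starRingEnd ℂ) ((v i).c w s) := by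
      intro s _
      rw [hSdef]
      simp only
      rw [map_sum, Finset.mul_sum]
    rw [Finset.sum_congr rfl e1, Finset.sum_comm]
    push_cast
    refine Finset.sum_congr rfl (fun i hi => ?_)
    rw [mem_range] at hi
    rw [(hv i hi).good.pair w u]
    refine Finset.sum_congr rfl (fun t ht => ?_)
    exact (hv i hi).ph t ht
  have h2 : a * ∑ i ∈ range K, (((B i).card : ℝ) - 2 * δ * J * K) ≤
      ∑ i ∈ range K, ∑ t ∈ (v i).I, ‖tw w u t ((v i).n t)‖ := by
    rw [Finset.mul_sum]
    refine Finset.sum_le_sum (fun i hi => ?_)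
    rw [mem_range] at hi
    calc _ ≤ a * ((∑ t ∈ (v i).I, (v i).n t : ℕ) : ℝ) :=
          mul_le_mul_of_nonneg_left (hv i hi).len ha
      _ = ∑ t ∈ (v i).I, a * (v i).n t := by
          push_cast
          rw [Finset.mul_sum]
      _ ≤ _ := Finset.sum_le_sum (fun t ht => (hv i hi).big t ht)
  have h3 : ∑ i ∈ range K, ∑ t ∈ (v i).I, ‖tw w u t ((v i).n t)‖ ≤
      ∑ s ∈ range J, ‖u s‖ * ‖S s‖ := by
    have e2 : (0 : ℝ) ≤ ∑ i ∈ range K, ∑ t ∈ (v i).I, ‖tw w u t ((v i).n t)‖ :=
      Finset.sum_nonneg (fun _ _ => Finset.sum_nonneg (fun _ _ => norm_nonneg _))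
    calc _ = ‖∑ s ∈ range J, u s * (starRingEnd ℂ) (S s)‖ := by
          rw [h1, Complex.norm_real, Real.norm_of_nonneg e2]
      _ ≤ _ := by
          refine (norm_sum_le _ _).trans (Finset.sum_le_sum (fun s _ => ?_))
          rw [norm_mul, RCLike.norm_conj]
  -- the energy
  have h4 : ∑ s ∈ range J, ‖S s‖ ^ 2 ≤ (K + K ^ 2 * δ) * J := by
    have e1 : ((∑ s ∈ range J, ‖S s‖ ^ 2 : ℝ) : ℂ) =
        ∑ i ∈ range K, ∑ j ∈ range K, ∑ s ∈ range J,
          (v i).c w s * (starRingEnd ℂ) ((v j).c w s) := by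
      push_cast
      have : ∀ s ∈ range J, ((‖S s‖ : ℂ)) ^ 2 = ∑ i ∈ range K, ∑ j ∈ range K,
          (v i).c w s * (starRingEnd ℂ) ((v j).c w s) := by
        intro s _
        rw [← Complex.mul_conj' (S s), hSdef]
        simp only
        rw [map_sum, Finset.sum_mul_sum]
      rw [Finset.sum_congr rfl this, Finset.sum_comm]
      refine Finset.sum_congr rfl (fun i _ => ?_)
      rw [Finset.sum_comm]
    have e2 : ∀ i ∈ range K, ∀ j ∈ range K, ‖∑ s ∈ range J,
        (v i).c w s * (starRingEnd ℂ) ((v j).c w s)‖ ≤ (if i = j then (J : ℝ) else 0) + δ * J := by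
      intro i hi j hj
      rw [mem_range] at hi hj
      have hJp : (0 : ℝ) ≤ J := by positivity
      rcases lt_trichotomy i j with h | h | h
      · have e3 := (hv j hj).good.orth (hv i hi).good w (hS.lo i hi) ((hv i hi).ok j h hj) hδ
        rw [if_neg (by omega), zero_add]
        rw [← RCLike.norm_conj, map_sum]
        refine le_trans (le_of_eq ?_) e3
        congr 1
        refine Finset.sum_congr rfl (fun s _ => ?_)
        rw [map_mul, Complex.conj_conj, mul_comm]
      · subst h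
        rw [if_pos rfl]
        refine (norm_sum_le _ _).trans ?_
        calc _ ≤ ∑ s ∈ range J, (1 : ℝ) := by
              refine Finset.sum_le_sum (fun s _ => ?_)
              rw [norm_mul, RCLike.norm_conj]
              exact mul_le_one₀ ((hv i hi).good.norm_c w hb s) (norm_nonneg _)
                ((hv i hi).good.norm_c w hb s)
          _ = J := by simp
          _ ≤ J + δ * J := by nlinarith [mul_nonneg hδ hJp]
      · have e3 := (hv i hi).good.orth (hv j hj).good w (hS.lo j hj) ((hv j hj).ok i h hi) hδ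
        rw [if_neg (by omega), zero_add]
        exact e3
    have e4 : (0 : ℝ) ≤ ∑ s ∈ range J, ‖S s‖ ^ 2 := Finset.sum_nonneg (fun _ _ => by positivity)
    calc ∑ s ∈ range J, ‖S s‖ ^ 2 = ‖((∑ s ∈ range J, ‖S s‖ ^ 2 : ℝ) : ℂ)‖ := by
          rw [Complex.norm_real, Real.norm_of_nonneg e4]
      _ ≤ ∑ i ∈ range K, ∑ j ∈ range K, ((if i = j then (J : ℝ) else 0) + δ * J) := by
          rw [e1]
          refine (norm_sum_le _ _).trans (Finset.sum_le_sum (fun i hi => ?_))
          exact (norm_sum_le _ _).trans (Finset.sum_le_sum (fun j hj => e2 i hi j hj))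
      _ = (K + K ^ 2 * δ) * J := by
          have : ∀ i ∈ range K, ∑ j ∈ range K, ((if i = j then (J : ℝ) else 0) + δ * J) =
              J + K * (δ * J) := by
            intro i hi
            rw [Finset.sum_add_distrib, Finset.sum_ite_eq, if_pos hi, Finset.sum_const,
              card_range, nsmul_eq_mul]
          rw [Finset.sum_congr rfl this, Finset.sum_const, card_range, nsmul_eq_mul]
          ring
  -- Cauchy-Schwarz
  have h5 : (∑ s ∈ range J, ‖u s‖ * ‖S s‖) ^ 2 ≤ J * ((K + K ^ 2 * δ) * J) := by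
    refine (Finset.sum_mul_sq_le_sq_mul_sq _ _ _).trans ?_
    refine mul_le_mul ?_ h4 (Finset.sum_nonneg (fun _ _ => by positivity)) (by positivity)
    calc _ ≤ ∑ s ∈ range J, (1 : ℝ) := by
          refine Finset.sum_le_sum (fun s _ => ?_)
          exact pow_le_one₀ (norm_nonneg _) (hu s)
      _ = J := by simp
  have h6 : ∑ s ∈ range J, ‖u s‖ * ‖S s‖ ≤ J * Real.sqrt (K + K ^ 2 * δ) := by
    refine le_of_sq_le_sq ?_ (by positivity)
    refine h5.trans (le_of_eq ?_)
    rw [mul_pow, Real.sq_sqrt (by positivity)]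
    ring
  exact h2.trans (h3.trans h6)

end Pool.Agent.Rtt
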